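import Mathlib

/-!
# The structure `(ℕ>0; +, x * 2 ^ y, ≤, 1)` is not automatic
-/

namespace Pool.Agent.Results.MP_34afd1_lc.NotAutomatic

open List

/-- The convolution of a `k`-tuple of words over `A`: the word over `Fin k → Option A` whose length
is the largest of the lengths and whose `i`-th letter collects the `i`-th letters of the words,
the padding symbol `none` being used past the end of a word. -/
def conv {A : Type} {k : ℕ} (w : Fin k → List A) : List (Fin k → Option A) :=
  (List.range (Finset.univ.sup fun j => (w j).length)).map fun i j => (w j)[i]?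

/-- A `k`-ary relation on words over `A` is automatic if the set of the convolutions of its tuples
is a regular language. -/
def AutomaticRel {A : Type} {k : ℕ} (R : Set (Fin k → List A)) : Prop :=
  Language.IsRegular (conv '' R : Language (Fin k → Option A))

/-- The structure `(ℕ>0; +, x * 2 ^ y, ≤, 1)` is automatic: for some finite alphabet `A` there is a
bijection `e` from the positive integers onto a regular language `D` over `A` that carries the
order, the constant and the graphs of the two functions to automatic relations. -/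
def IsAutomatic : Prop :=
  ∃ (A : Type) (_ : Finite A) (D : Language A) (e : ℕ+ → List A),
    D.IsRegular ∧ Function.Injective e ∧ Set.range e = D ∧
    AutomaticRel {w : Fin 3 → List A | ∃ x y : ℕ+, w = ![e x, e y, e (x + y)]} ∧
    AutomaticRel {w : Fin 3 → List A | ∃ x y : ℕ+, w = ![e x, e y, e (x * 2 ^ (y : ℕ))]} ∧
    AutomaticRel {w : Fin 2 → List A | ∃ x y : ℕ+, x ≤ y ∧ w = ![e x, e y]} ∧
    AutomaticRel {w : Fin 1 → List A | w = ![e 1]}

section Conv

variable {A : Type} {k : ℕ}

theorem length_conv (w : Fin k → List A) :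
    (conv w).length = Finset.univ.sup fun j => (w j).length := by
  simp [conv]

theorem le_length_conv (w : Fin k → List A) (j : Fin k) : (w j).length ≤ (conv w).length := by
  rw [length_conv]
  exact Finset.le_sup (f := fun j => (w j).length) (Finset.mem_univ j)

theorem getElem?_conv (w : Fin k → List A) (i : ℕ) (hi : i < (conv w).length) (j : Fin k) :
    ((conv w)[i]?).map (fun l => l j) = some ((w j)[i]?) := by
  rw [length_conv] at hi
  simp [conv, hi]

/-- the letter at place `i` of the `j`-th word is read off the convolution -/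
theorem track (w : Fin k → List A) (i : ℕ) (j : Fin k) :
    (w j)[i]? = ((conv w)[i]?).bind (fun l => l j) := by
  by_cases hi : i < (conv w).length
  · have h := getElem?_conv w i hi j
    obtain ⟨l, hl⟩ : ∃ l, (conv w)[i]? = some l := ⟨_, List.getElem?_eq_getElem hi⟩
    rw [hl] at h ⊢
    simpa using h.symm
  · have h1 : (w j).length ≤ i := (le_length_conv w j).trans (not_lt.1 hi)
    rw [List.getElem?_eq_none h1, List.getElem?_eq_none (not_lt.1 hi)]
    rfl

end Conv

/-- the growth lemma for a binary function with automatic graph -/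
theorem growth {A : Type} {e : ℕ+ → List A} (he : Function.Injective e) (f : ℕ+ → ℕ+ → ℕ+)
    (hf : AutomaticRel {w : Fin 3 → List A | ∃ x y : ℕ+, w = ![e x, e y, e (f x y)]}) :
    ∃ N : ℕ, ∀ x y, (e (f x y)).length ≤ max (e x).length (e y).length + N := by
  obtain ⟨σ, _, M, hM⟩ := hf
  refine ⟨Fintype.card σ, fun x y => ?_⟩
  by_contra hlt
  push Not at hlt
  set m := max (e x).length (e y).length with hm
  set t : Fin 3 → List A := ![e x, e y, e (f x y)] with ht
  have hlen : (conv t).length = (e (f x y)).length := by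
    rw [length_conv]
    apply le_antisymm
    · apply Finset.sup_le
      intro j _
      fin_cases j
      · simp only [ht]; simp; omega
      · simp only [ht]; simp; omega
      · simp [ht]
    · exact Finset.le_sup (f := fun j => (t j).length) (Finset.mem_univ 2)
  have hacc : conv t ∈ M.accepts := by
    rw [hM]; exact ⟨t, ⟨x, y, rfl⟩, rfl⟩
  have hdrop : Fintype.card σ ≤ ((conv t).drop m).length := by
    rw [List.length_drop, hlen]; omega
  obtain ⟨q, a, b, c, hx, -, hb, h1, h2, h3⟩ := M.evalFrom_split
    (s := M.evalFrom M.start ((conv t).take m)) hdrop rfl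
  have hacc2 : (conv t).take m ++ (a ++ c) ∈ M.accepts := by
    rw [DFA.mem_accepts] at hacc ⊢
    unfold DFA.eval
    rw [DFA.evalFrom_of_append, DFA.evalFrom_of_append, h1, h3, ← DFA.evalFrom_of_append,
      List.take_append_drop]
    exact hacc
  rw [hM] at hacc2
  obtain ⟨t', ⟨x', y', rfl⟩, ht'⟩ := hacc2
  have hdec : conv t = (conv t).take m ++ (a ++ (b ++ c)) := by
    conv_lhs => rw [← List.take_append_drop m (conv t), hx]
    simp
  have htm : ((conv t).take m).length = m := by
    rw [List.length_take, hlen]; omega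
  have hbl : 0 < b.length := List.length_pos_iff.2 hb
  have hlen2 : (conv t).length = m + a.length + b.length + c.length := by
    conv_lhs => rw [hdec]
    simp only [List.length_append, htm]; omega
  -- the letters at places past `m` have empty first two tracks
  have hpast : ∀ (j : Fin 3), (t j).length ≤ m → ∀ l ∈ (conv t).drop m, l j = none := by
    intro j hj l hl
    obtain ⟨i, hi⟩ := List.mem_iff_getElem?.1 hl
    rw [List.getElem?_drop] at hi
    have := track t (m + i) j
    rw [hi, List.getElem?_eq_none (by omega)] at this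
    simpa using this.symm
  have hsame : ∀ (j : Fin 3), (t j).length ≤ m →
      (![e x', e y', e (f x' y')] : Fin 3 → List A) j = t j := by
    intro j hj
    apply List.ext_getElem?
    intro i
    rw [track _ i j, ht', track t i j]
    rcases lt_or_ge i m with him | him
    · rw [List.getElem?_append_left (by rw [htm]; exact him)]
      conv_rhs => rw [hdec, List.getElem?_append_left (by rw [htm]; exact him)]
    · rw [List.getElem?_append_right (by rw [htm]; exact him), htm]
      conv_rhs => rw [hdec, List.getElem?_append_right (by rw [htm]; exact him), htm]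
      have hn : ∀ (u : List (Fin 3 → Option A)), (∀ l ∈ u, l ∈ (conv t).drop m) → ∀ i : ℕ,
          (u[i]?).bind (fun l => l j) = none := by
        intro u hu i
        rcases h : u[i]? with _ | l
        · rfl
        · exact hpast j hj l (hu l (List.mem_of_getElem? h))
      rw [hn, hn]
      · intro l hl; rw [hx]; simp only [List.mem_append] at hl ⊢; tauto
      · intro l hl; rw [hx]; simp only [List.mem_append] at hl ⊢; tauto
  have hx' : x' = x := he (by simpa [ht] using hsame 0 (by simp [ht, hm]))
  have hy' : y' = y := he (by simpa [ht] using hsame 1 (by simp [ht, hm]))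
  subst hx' hy'
  have : (conv t).length = (List.take m (conv t) ++ (a ++ c)).length := by rw [← ht']
  simp only [List.length_append, htm, hlen2] at this
  omega

theorem encard_words {A : Type} [Finite A] (n : ℕ) (T : Set (List A))
    (hT : ∀ w ∈ T, w.length ≤ n) : T.Finite ∧ T.ncard ≤ (Nat.card A + 1) ^ n := by
  have := Fintype.ofFinite A
  let g : List A → (Fin n → Option A) := fun w i => w[(i : ℕ)]?
  have hg : Set.InjOn g T := by
    intro u hu v hv huv
    apply List.ext_getElem?
    intro i
    rcases lt_or_ge i n with hi | hi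
    · exact congrFun huv ⟨i, hi⟩
    · rw [List.getElem?_eq_none ((hT u hu).trans hi), List.getElem?_eq_none ((hT v hv).trans hi)]
  have hfin : T.Finite := Set.Finite.of_finite_image (Set.toFinite _) hg
  refine ⟨hfin, ?_⟩
  rw [← hg.ncard_image]
  refine (Set.ncard_le_ncard (Set.subset_univ _) Set.finite_univ).trans ?_
  rw [Set.ncard_univ, Nat.card_eq_fintype_card, Fintype.card_fun, Fintype.card_option,
    Fintype.card_fin, Nat.card_eq_fintype_card]

/-- **The structure `(ℕ>0; +, x * 2 ^ y, ≤, 1)` is not automatic.** -/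
theorem result : ¬ IsAutomatic := by
  rintro ⟨A, _, D, e, -, he, -, hadd, hpow, -, -⟩
  obtain ⟨N₁, hN₁⟩ := growth he (fun x y => x + y) hadd
  obtain ⟨N₂, hN₂⟩ := growth he (fun x y => x * 2 ^ (y : ℕ)) hpow
  set c := 2 * N₁ + N₂ + 1 with hc
  set n₀ := max (e 1).length (e 2).length with hn₀
  let B : ℕ → Set ℕ+ := fun n => {x | (e x).length ≤ n}
  have hB : ∀ n, (B n).Finite ∧ (B n).ncard ≤ (Nat.card A + 1) ^ n := by
    intro n
    have h := encard_words n (e '' B n) (by rintro _ ⟨x, hx, rfl⟩; exact hx)
    rw [Set.ncard_image_of_injective _ he] at h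
    exact ⟨Set.Finite.of_finite_image h.1 he.injOn, h.2⟩
  let F : ℕ+ × ℕ+ → ℕ+ := fun p => (p.1 + p.1 + 1) * 2 ^ (p.2 : ℕ)
  have hF : Function.Injective F := by
    rintro ⟨a, b⟩ ⟨a', b'⟩ h
    have h' : (2 * (a : ℕ) + 1) * 2 ^ (b : ℕ) = (2 * (a' : ℕ) + 1) * 2 ^ (b' : ℕ) := by
      have := congrArg (fun z : ℕ+ => (z : ℕ)) h
      simpa [F, PNat.add_coe, PNat.mul_coe, PNat.pow_coe, two_mul] using this
    have key : ∀ (a b a' b' : ℕ), b ≤ b' →
        (2 * a + 1) * 2 ^ b = (2 * a' + 1) * 2 ^ b' → a = a' ∧ b = b' := by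
      intro a b a' b' hb h
      obtain ⟨d, rfl⟩ := Nat.exists_eq_add_of_le hb
      rw [pow_add] at h
      have h2 : 2 * a + 1 = (2 * a' + 1) * 2 ^ d := by
        apply Nat.eq_of_mul_eq_mul_right (pow_pos (by norm_num : 0 < 2) b)
        rw [h]; ring
      rcases d with _ | d
      · constructor <;> [skip; rfl]
        simp at h2; omega
      · exfalso
        rw [pow_succ] at h2
        have : (2 * a' + 1) * (2 ^ d * 2) = 2 * ((2 * a' + 1) * 2 ^ d) := by ring
        omega
    rcases le_total (b : ℕ) b' with hb | hb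
    · obtain ⟨h1, h2⟩ := key _ _ _ _ hb h'
      exact Prod.ext (PNat.coe_injective h1) (PNat.coe_injective h2)
    · obtain ⟨h1, h2⟩ := key _ _ _ _ hb h'.symm
      exact Prod.ext (PNat.coe_injective h1.symm) (PNat.coe_injective h2.symm)
  have hstep : ∀ n, n₀ ≤ n → (B n).ncard ^ 2 ≤ (B (n + c)).ncard := by
    intro n hn
    have hsub : F '' (B n ×ˢ B n) ⊆ B (n + c) := by
      rintro _ ⟨⟨x, y⟩, ⟨hx, hy⟩, rfl⟩
      have hx : (e x).length ≤ n := hx
      have hy : (e y).length ≤ n := hy
      have h1 := hN₁ x x
      have h2 := hN₁ (x + x) 1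
      have h3 := hN₂ (x + x + 1) y
      have h4 : (e 1).length ≤ n := (le_max_left _ _).trans hn
      change (e ((x + x + 1) * 2 ^ (y : ℕ))).length ≤ n + c
      omega
    have h1 := Set.ncard_le_ncard hsub (hB (n + c)).1
    rwa [Set.ncard_image_of_injective _ hF, Set.ncard_prod, ← sq] at h1
  have h2 : 2 ≤ (B n₀).ncard := by
    have hsub : ({1, 2} : Set ℕ+) ⊆ B n₀ := by
      rintro x (rfl | rfl)
      · exact (le_max_left _ _ : (e 1).length ≤ n₀)
      · exact (le_max_right _ _ : (e 2).length ≤ n₀)
    have := Set.ncard_le_ncard hsub (hB n₀).1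
    rwa [Set.ncard_pair (by decide)] at this
  have hgrow : ∀ k : ℕ, 2 ^ 2 ^ k ≤ (B (n₀ + k * c)).ncard := by
    intro k
    induction k with
    | zero => simpa using h2
    | succ k ih =>
      have h := hstep (n₀ + k * c) (by omega)
      have e1 : n₀ + (k + 1) * c = n₀ + k * c + c := by ring
      rw [e1]
      refine le_trans ?_ h
      calc 2 ^ 2 ^ (k + 1) = (2 ^ 2 ^ k) ^ 2 := by rw [← pow_mul, pow_succ]
        _ ≤ _ := Nat.pow_le_pow_left ih 2
  obtain ⟨b, hb⟩ : ∃ b : ℕ, Nat.card A + 1 ≤ 2 ^ b := ⟨Nat.card A + 1, Nat.lt_two_pow_self.le⟩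
  have hle : ∀ k : ℕ, 2 ^ k ≤ b * (n₀ + k * c) := by
    intro k
    have h1 : 2 ^ 2 ^ k ≤ (2 ^ b) ^ (n₀ + k * c) :=
      (hgrow k).trans ((hB _).2.trans (Nat.pow_le_pow_left hb _))
    rw [← pow_mul] at h1
    exact (Nat.pow_le_pow_iff_right (by norm_num)).1 h1
  -- exponential beats linear
  have hlin : ∀ (u v : ℕ), ∃ k : ℕ, u + v * k < 2 ^ k := by
    intro u v
    have h1 : Filter.Tendsto (fun k : ℕ => ((u : ℝ) + v * k) / 2 ^ k) Filter.atTop (nhds 0) := by
      have ha : Filter.Tendsto (fun k : ℕ => (u : ℝ) * (1 / 2 ^ k)) Filter.atTop (nhds 0) := by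
        have := (tendsto_pow_atTop_nhds_zero_of_lt_one (r := (1 / 2 : ℝ)) (by norm_num)
          (by norm_num)).const_mul (u : ℝ)
        simpa [one_div, inv_pow] using this
      have hb2 : Filter.Tendsto (fun k : ℕ => (v : ℝ) * ((k : ℝ) * (1 / 2) ^ k)) Filter.atTop
          (nhds 0) := by
        have := (tendsto_self_mul_const_pow_of_lt_one (r := (1 / 2 : ℝ)) (by norm_num)
          (by norm_num)).const_mul (v : ℝ)
        simpa using this
      have := ha.add hb2
      simp only [add_zero] at this
      refine this.congr fun k => ?_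
      rw [one_div, one_div, inv_pow]
      field_simp
    obtain ⟨k, hk⟩ := (h1.eventually (gt_mem_nhds (zero_lt_one))).exists
    refine ⟨k, ?_⟩
    rw [div_lt_one (by positivity)] at hk
    exact_mod_cast hk
  obtain ⟨k, hk⟩ := hlin (b * n₀) (b * c)
  have := hle k
  have e2 : b * (n₀ + k * c) = b * n₀ + b * c * k := by ring
  omega

end Pool.Agent.Results.MP_34afd1_lc.NotAutomatic
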